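import Mathlib
import Pool.Agent.D0H56.MD.App2

/-!
# Margulis' conjecture over number fields with small composita of conjugates

Fix `n`, `s` and `δ < 1/3`. We consider number fields `k`, of any degree `m`, such that for each of
the noncompact embeddings `σ₁ ∈ S` there is a compact embedding `σ₂ ∉ S` for which the compositum of
the conjugates `σ₁ k` and `σ₂ k` has degree at most `m ^ (1 + δ)`. Examples:

* all number fields with more than `|S|` automorphisms, for instance all Galois extensions of `ℚ` of
  degree larger than `|S|` (here `δ = 0`);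
* all number fields with a subfield `k₀` such that `|S| < [k : k₀] ≤ m ^ δ`, for instance, for
  groups with one noncompact place, all quadratic extensions of number fields if `2 ≤ m ^ δ`.

Theorem: the torsion-free arithmetic groups over these fields, realized by integral matrices of size
`n`, with at most `s` noncompact embeddings, form a uniformly discrete family. Moreover their
injectivity radii tend to infinity with the degree `m`: every `γ ≠ 1` has an eigenvalue `l` with
`log |l| ≥ c m ^ a`, for all `a < (1 - 3 δ) / 8`, and a compact set has conjugates which meet only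
finitely many degrees.

Method. Let `x` be an eigenvalue of `γ` with `|x| > 1`; it occurs over some `σ₁ ∈ S`. Its conjugate
`y` over `σ₂ ∉ S` has absolute value `1` and is no root of unity. So `x` and `y` are multiplicatively
independent, and `ℚ(x, y)` has degree at most `n² m ^ (1 + δ)`, while `x` has degree at least `m/s`.
Such a pair of conjugates has a large height: this is a two-dimensional Dobrowolski theorem, proved
here by an interpolation determinant. Its rows are indexed by the embeddings of `K = ℚ(x, y)`, and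
are the divided derivatives of order less than `T` of the monomials at `(x, y)` together with their
values at `(x ^ p, y ^ p)` for finitely many primes `p`. Its square is a nonzero rational integer
(trace form of `K`), divisible by high powers of the primes `p` (Frobenius) and small at infinity.
That few monomials suffice to make the determinant nonzero follows from the independence of most
monomials of small degree (an energy inequality, `MP_7ab245_nt/LinearRelations`) and a linear
version of a theorem of Olson.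

`Pool.Agent.H225R3.MargDefs` contains the definitions: `Realization ρ Γ k n S` (a homomorphism `r`
from `Γ` to the `n` by `n` matrices over the ring of integers of the number field `k`, bounded under
all embeddings outside `S`, such that for `σ` in `S` the eigenvalues of `σ (r γ)` are eigenvalues of
`ρ γ`, and such that only `1` is mapped to a unipotent matrix) and `UniformlyDiscrete` (there is an
identity neighbourhood `U` such that `g U g⁻¹` meets every group of the family in the identity only).
-/

set_option autoImplicit false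

namespace Pool.Agent.Results.MP_162bbe_gt.SmallComposita

open NumberField Module Pool.Agent.H225R3.Marg

universe u

/-- There is no element of finite order other than the identity. -/
def TorsionFree {G : Type*} [Group G] (Γ : Subgroup G) : Prop :=
  ∀ γ ∈ Γ, ∀ N : ℕ, 0 < N → γ ^ N = 1 → γ = 1

/-- The degree over `ℚ` of the compositum of the conjugates `σ k` and `τ k` of `k`. -/
noncomputable def compositumDegree {k : Type} [Field k] (σ τ : k →+* ℂ) : ℕ :=
  finrank ℚ (IntermediateField.adjoin ℚ (Set.range σ ∪ Set.range τ))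

/-- For each `σ₁` in `S` there is `σ₂` outside `S` such that the compositum of `σ₁ k` and `σ₂ k` has
degree at most `m ^ (1 + δ)`, where `m` is the degree of `k`. -/
def SmallComposita (δ : ℝ) {k : Type} [Field k] [NumberField k] (S : Finset (k →+* ℂ)) : Prop :=
  ∀ σ₁ ∈ S, ∃ σ₂ : k →+* ℂ, σ₂ ∉ S ∧
    (compositumDegree σ₁ σ₂ : ℝ) ≤ (finrank ℚ k : ℝ) ^ (1 + δ)

/-- The torsion-free subgroups `Γ` of `G` that have a realization by matrices of size `n`, with a set
`S` of at most `s` noncompact embeddings, over a number field `k` of degree `m` with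
`SmallComposita δ S`. -/
def Family (δ : ℝ) (s n m : ℕ) {G : Type*} [Group G] {M : ℕ}
    (ρ : G →* Matrix (Fin M) (Fin M) ℂ) : Set (Subgroup G) :=
  {Γ | TorsionFree Γ ∧
    ∃ (k : Type) (_ : Field k) (_ : NumberField k) (S : Finset (k →+* ℂ))
      (_ : Realization ρ Γ k n S), S.card ≤ s ∧ finrank ℚ k = m ∧ SmallComposita δ S}

/-- `γ` has an eigenvalue `l` under one of the noncompact embeddings, which is also an eigenvalue of
`ρ γ`, with `log |l| ≥ b`. -/
def LargeEigenvalue {G : Type*} [Group G] {M : ℕ} {ρ : G →* Matrix (Fin M) (Fin M) ℂ}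
    {Γ : Subgroup G} {k : Type} [Field k] [NumberField k] {n : ℕ} {S : Finset (k →+* ℂ)}
    (R : Realization ρ Γ k n S) (b : ℝ) (γ : Γ) : Prop :=
  ∃ σ ∈ S, ∃ l : ℂ, IsEig (conjMat σ (R.r γ)) l ∧ IsEig (ρ γ) l ∧ b ≤ Real.log ‖l‖

/-- **Margulis' conjecture over number fields with small composita of conjugates.**

Let `0 ≤ δ < 1/3`.

1. (Growth.) Let `0 ≤ a < (1 - 3 δ) / 8`. There is `c > 0`, depending on `n`, `s`, `δ`, `a` only,
   such that for every torsion-free group `Γ` with a realization of size `n` over a number field `k`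
   of degree `m`, with at most `s` noncompact embeddings and `SmallComposita δ S`, every `γ ≠ 1` in
   `Γ` has an eigenvalue `l` (under a noncompact embedding, and of `ρ γ`) with `log |l| ≥ c m ^ a`.
2. For every continuous finite dimensional complex representation `ρ` of a topological group `G`, the
   union over all `m` of the families `Family δ s n m ρ` is uniformly discrete, and for every compact
   subset `C` of `G` there is `m₀` such that the conjugates of `C` meet the groups in
   `Family δ s n m ρ`, `m ≥ m₀`, at most in the identity.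
3. `SmallComposita 0 S` holds if `k` has more than `|S|` automorphisms, and `SmallComposita δ S`
   holds if `k` has a subfield `k₀` with `|S| < [k : k₀] ≤ m ^ δ`. -/
theorem result :
    (∀ (n s : ℕ) (δ a : ℝ), 0 ≤ δ → 0 ≤ a → a < (1 - 3 * δ) / 8 → ∃ c : ℝ, 0 < c ∧
      ∀ (G : Type u) [Group G] (M : ℕ) (ρ : G →* Matrix (Fin M) (Fin M) ℂ)
        (Γ : Subgroup G) (k : Type) [Field k] [NumberField k] (S : Finset (k →+* ℂ))
        (R : Realization ρ Γ k n S), TorsionFree Γ → S.card ≤ s → SmallComposita δ S →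
        ∀ γ : Γ, γ ≠ 1 → LargeEigenvalue R (c * (finrank ℚ k : ℝ) ^ a) γ) ∧
    (∀ (G : Type u) [Group G] [TopologicalSpace G] (M : ℕ) (ρ : G →* Matrix (Fin M) (Fin M) ℂ),
      Continuous ρ → ∀ (n s : ℕ) (δ : ℝ), 0 ≤ δ → δ < 1 / 3 →
      UniformlyDiscrete (⋃ m : ℕ, Family δ s n m ρ) ∧
      ∀ C : Set G, IsCompact C → ∃ m₀ : ℕ, ∀ m : ℕ, m₀ ≤ m → ∀ Γ ∈ Family δ s n m ρ,
        ∀ g : G, ∀ v ∈ C, g * v * g⁻¹ ∈ Γ → g * v * g⁻¹ = 1) ∧
    (∀ (k : Type) [Field k] [NumberField k] (S : Finset (k →+* ℂ)),
      (S.card < Nat.card (k ≃+* k) → SmallComposita 0 S) ∧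
      ∀ (δ : ℝ) (k₀ : IntermediateField ℚ k), S.card < finrank k₀ k →
        (finrank k₀ k : ℝ) ≤ (finrank ℚ k : ℝ) ^ δ → SmallComposita δ S) := by
  have hE := Pool.Agent.D0H56.MD.t_ELT3
  have h1 : ∀ (n s : ℕ) (δ a : ℝ), 0 ≤ δ → 0 ≤ a → a < (1 - 3 * δ) / 8 → ∃ c : ℝ, 0 < c ∧
      ∀ (G : Type u) [Group G] (M : ℕ) (ρ : G →* Matrix (Fin M) (Fin M) ℂ)
        (Γ : Subgroup G) (k : Type) [Field k] [NumberField k] (S : Finset (k →+* ℂ))
        (R : Realization ρ Γ k n S), TorsionFree Γ → S.card ≤ s → SmallComposita δ S →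
        ∀ γ : Γ, γ ≠ 1 → LargeEigenvalue R (c * (finrank ℚ k : ℝ) ^ a) γ := by
    intro n s δ a hδ ha hab
    obtain ⟨c, hc, h⟩ := Pool.Agent.D0H56.MD.fields.{u} hE n s δ a hδ ha hab
    exact ⟨c, hc, fun G _ M ρ Γ k _ _ S R htf hS hstar γ hγ =>
      h G M ρ Γ k S R hS htf hstar γ hγ⟩
  refine ⟨h1, ?_, ?_⟩
  · intro G _ _ M ρ hρ n s δ hδ hδ3
    obtain ⟨c, hc, h⟩ := h1 n s δ ((1 - 3 * δ) / 16) hδ (by linarith) (by linarith)
    have hF : ∀ m : ℕ, ∀ Γ ∈ Family δ s n m ρ, ∀ γ ∈ Γ, γ ≠ 1 → ∃ l : ℂ, IsEig (ρ γ) l ∧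
        c * (m : ℝ) ^ ((1 - 3 * δ) / 16) ≤ Real.log ‖l‖ := by
      rintro m Γ ⟨htf, k, _, _, S, R, hs, hm, hstar⟩ γ hγ hne
      obtain ⟨σ, -, l, -, hl, hlow⟩ := h G M ρ Γ k S R htf hs hstar ⟨γ, hγ⟩
        (fun h0 => hne (congrArg Subtype.val h0))
      rw [hm] at hlow
      exact ⟨l, hl, hlow⟩
    refine ⟨Pool.Agent.D0H56.MD.disc_of_large ρ hρ c hc _ ?_, ?_⟩
    · intro Γ hΓ γ hγ hne
      obtain ⟨m, hm⟩ := Set.mem_iUnion.mp hΓ
      obtain ⟨l, hl, hlow⟩ := hF m Γ hm γ hγ hne
      refine ⟨l, hl, le_trans ?_ hlow⟩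
      obtain ⟨-, k, _, _, S, R, -, hdeg, -⟩ := hm
      have hm1 : (1 : ℝ) ≤ m := by
        rw [← hdeg]
        exact_mod_cast (finrank_pos : 0 < finrank ℚ k)
      have h2 : (1 : ℝ) ≤ (m : ℝ) ^ ((1 - 3 * δ) / 16) := Real.one_le_rpow hm1 (by linarith)
      nlinarith
    · intro C hC
      exact Pool.Agent.D0H56.MD.escape_of_large ρ hρ c _ hc (by linarith) _ hF C hC
  · intro k _ _ S
    refine ⟨fun hS σ₁ _ => ?_, fun δ k₀ hS hδ σ₁ _ => ?_⟩
    · obtain ⟨σ₂, h2, h3⟩ := Pool.Agent.D0H65.MD.t_COMPA k S hS σ₁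
      refine ⟨σ₂, h2, ?_⟩
      have h4 : compositumDegree σ₁ σ₂ = finrank ℚ k := h3
      rw [h4, add_zero, Real.rpow_one]
    · obtain ⟨σ₂, h2, h3⟩ := Pool.Agent.D0H65.MD.t_COMPB k k₀ S hS σ₁
      refine ⟨σ₂, h2, ?_⟩
      have h4 : compositumDegree σ₁ σ₂ ≤ finrank k₀ k * finrank ℚ k := h3
      have h5 : (0 : ℝ) < finrank ℚ k := by exact_mod_cast (finrank_pos : 0 < finrank ℚ k)
      calc (compositumDegree σ₁ σ₂ : ℝ) ≤ (finrank k₀ k : ℝ) * finrank ℚ k := by exact_mod_cast h4
        _ ≤ (finrank ℚ k : ℝ) ^ δ * finrank ℚ k := mul_le_mul_of_nonneg_right hδ h5.le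
        _ = (finrank ℚ k : ℝ) ^ (1 + δ) := by
          rw [add_comm, Real.rpow_add_one h5.ne']

end Pool.Agent.Results.MP_162bbe_gt.SmallComposita
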